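import Pool.Agent.R221.Bi.Final

set_option autoImplicit false

open Set Pool.Agent.R221.Bi

namespace Pool.Agent.Results.MP_c27a16_an.TwoEllipses

/-- A biharmonic function on the plane vanishing on two distinct ellipses vanishes identically. -/
theorem result (u : Plane → ℝ) (hu : IsBiharmonic u) (E₁ E₂ : Set Plane) (h₁ : IsEllipse E₁)
    (h₂ : IsEllipse E₂) (hne : E₁ ≠ E₂) (hz : ∀ x ∈ E₁ ∪ E₂, u x = 0) : ∀ x, u x = 0 :=
  fun x => main hu h₁ h₂ hne hz x

end Pool.Agent.Results.MP_c27a16_an.TwoEllipses
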